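import Pool.Agent.H12.UCR.Stmts

set_option autoImplicit false

open MeasureTheory Filter Topology

namespace Pool.UCR

theorem inj_cont (μ : Measure UnitAddCircle) [IsFiniteMeasure μ] :
    Continuous (fun f : C(UnitAddCircle, ℂ) => ∫ x, f x ∂μ) := by
  have h := (MeasureTheory.continuous_integral (α := UnitAddCircle) (G := ℂ) (μ := μ)).comp
    (ContinuousMap.toLp (E := ℂ) 1 μ ℂ).continuous
  exact h.congr fun f => integral_congr_ae (ContinuousMap.coeFn_toLp μ f)

theorem inj_int (μ : Measure UnitAddCircle) [IsFiniteMeasure μ] (f : C(UnitAddCircle, ℂ)) :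
    Integrable (fun x => f x) μ :=
  f.continuous.integrable_of_hasCompactSupport (HasCompactSupport.of_compactSpace _)

theorem inj_all (μ ν : Measure UnitAddCircle) [IsFiniteMeasure μ] [IsFiniteMeasure ν]
    (h : ∀ n : ℤ, ∫ x, fourier n x ∂μ = ∫ x, fourier n x ∂ν) (f : C(UnitAddCircle, ℂ)) :
    ∫ x, f x ∂μ = ∫ x, f x ∂ν := by
  have hcl : IsClosed {f : C(UnitAddCircle, ℂ) | ∫ x, f x ∂μ = ∫ x, f x ∂ν} :=
    isClosed_eq (inj_cont μ) (inj_cont ν)
  have hsp : ((Submodule.span ℂ (Set.range (@fourier (1 : ℝ))) : Submodule ℂ C(UnitAddCircle, ℂ)) :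
      Set C(UnitAddCircle, ℂ)) ⊆ {f : C(UnitAddCircle, ℂ) | ∫ x, f x ∂μ = ∫ x, f x ∂ν} := by
    intro g hg
    simp only [Set.mem_setOf_eq]
    have hg' : g ∈ Submodule.span ℂ (Set.range (@fourier (1 : ℝ))) := hg
    induction hg' using Submodule.span_induction with
    | mem x hx =>
      obtain ⟨n, rfl⟩ := hx
      exact h n
    | zero => simp
    | add x y hx' hy' hx hy =>
      simp only [ContinuousMap.add_apply]
      rw [integral_add (inj_int μ x) (inj_int μ y), integral_add (inj_int ν x) (inj_int ν y),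
        hx hx', hy hy']
    | smul a x hx' hx =>
      simp only [ContinuousMap.smul_apply]
      rw [integral_smul, integral_smul, hx hx']
  have hmem : f ∈ closure ((Submodule.span ℂ (Set.range (@fourier (1 : ℝ))) :
      Submodule ℂ C(UnitAddCircle, ℂ)) : Set C(UnitAddCircle, ℂ)) := by
    have ht := span_fourier_closure_eq_top (T := (1 : ℝ))
    have : f ∈ (Submodule.span ℂ (Set.range (@fourier (1 : ℝ)))).topologicalClosure := by
      rw [ht]; trivial
    exact this
  exact closure_minimal hsp hcl hmem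

theorem inj_thm : INJS := by
  intro p μ ν h
  suffices key : ((μ.1 : ProbabilityMeasure UnitAddCircle) : Measure UnitAddCircle) =
      ((ν.1 : ProbabilityMeasure UnitAddCircle) : Measure UnitAddCircle) from
    Subtype.ext (Subtype.ext key)
  apply ext_of_forall_integral_eq_of_IsFiniteMeasure
  intro f
  have hall : ∀ n : ℤ, ∫ x, fourier n x ∂((μ.1 : ProbabilityMeasure UnitAddCircle) : Measure UnitAddCircle) =
      ∫ x, fourier n x ∂((ν.1 : ProbabilityMeasure UnitAddCircle) : Measure UnitAddCircle) := by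
    intro n
    obtain ⟨j, rfl | rfl⟩ := n.eq_nat_or_neg
    · exact h j
    · simp only [fourier_neg]
      rw [integral_conj, integral_conj]
      exact congrArg _ (h j)
  have hf := inj_all _ _ hall ⟨fun x => ((f x : ℝ) : ℂ), Complex.continuous_ofReal.comp f.continuous⟩
  simp only [ContinuousMap.coe_mk] at hf
  rw [integral_complex_ofReal, integral_complex_ofReal] at hf
  exact_mod_cast hf

end Pool.UCR
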